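import Mathlib

set_option autoImplicit false

namespace Pool.Agent.Results.MP_fbe9f6_co.BipartiteRelatedK2

open SimpleGraph

/-- `c` is an `F`-free colouring of `H` with `k` colours: no colour class of `c` contains
an induced copy of `F`. -/
def IsFreeColouring {W V : Type} (F : SimpleGraph W) (H : SimpleGraph V) (k : ℕ)
    (c : V → Fin k) : Prop :=
  ∀ i : Fin k, ¬ ∃ f : F ↪g H, ∀ w : W, c (f w) = i

/-- The `F`-free chromatic number `χ(H : -F)`: the least `k` for which an `F`-free colouring
of `H` with `k` colours exists. -/
noncomputable def freeChromaticNumber {W V : Type} (F : SimpleGraph W) (H : SimpleGraph V) : ℕ :=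
  sInf {k : ℕ | ∃ c : V → Fin k, IsFreeColouring F H k c}

/-- Every colouring with fewer than `l` colours has a monochromatic induced copy of `G`. -/
def Rich {W V : Type} (G : SimpleGraph W) (H : SimpleGraph V) (l : ℕ) : Prop :=
  ∀ (α : Type) [Fintype α] (c : V → α), Fintype.card α < l →
    ∃ f : G ↪g H, ∃ i : α, ∀ w, c (f w) = i

/-- The inductive construction. `Y` is the new independent set, and for each embedding `e` of `Q`
into `Y` and each `p : P` there is a copy of `H`. -/
def step {P Q Y V : Type} (adj : P → Q → Prop) (H : SimpleGraph V) :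
    SimpleGraph (Y ⊕ ((Q ↪ Y) × P × V)) where
  Adj a b := match a, b with
    | Sum.inl _, Sum.inl _ => False
    | Sum.inl y, Sum.inr (e, p, _) => ∃ q, e q = y ∧ adj p q
    | Sum.inr (e, p, _), Sum.inl y => ∃ q, e q = y ∧ adj p q
    | Sum.inr (e, p, v), Sum.inr (e', p', v') => e = e' ∧ p = p' ∧ H.Adj v v'
  symm := ⟨by
    rintro (y | ⟨e, p, v⟩) (y' | ⟨e', p', v'⟩) h
    · exact h
    · exact h
    · exact h
    · exact ⟨h.1.symm, h.2.1.symm, h.2.2.symm⟩⟩
  loopless := ⟨by
    rintro (y | ⟨e, p, v⟩) h
    · exact h
    · exact H.loopless.irrefl _ h.2.2⟩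

theorem step_colorable {P Q Y V : Type} (adj : P → Q → Prop) (H : SimpleGraph V) (l : ℕ)
    (h : H.Colorable l) : (step (Y := Y) adj H).Colorable (l + 1) := by
  obtain ⟨c⟩ := h
  refine ⟨SimpleGraph.Coloring.mk
    (fun a => match a with
      | Sum.inl _ => Fin.last l
      | Sum.inr (_, _, v) => (c v).castSucc) ?_⟩
  rintro (y | ⟨e, p, v⟩) (y' | ⟨e', p', v'⟩) h
  · exact absurd h id
  · exact (Fin.castSucc_lt_last _).ne'
  · exact (Fin.castSucc_lt_last _).ne
  · intro heq
    exact c.valid h.2.2 (Fin.castSucc_injective _ heq)

/-- The copy of `H` sitting inside `step`. -/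
def copyEmb {P Q Y V : Type} (adj : P → Q → Prop) (H : SimpleGraph V) (e : Q ↪ Y) (p : P) :
    H ↪g step (Y := Y) adj H where
  toFun v := Sum.inr (e, p, v)
  inj' := by
    intro v v' h
    simpa using h
  map_rel_iff' := by
    intro v v'
    constructor
    · intro h; exact h.2.2
    · intro h; exact ⟨rfl, rfl, h⟩

theorem step_rich {W V : Type} [Fintype W] (G : SimpleGraph W) (col : G.Coloring (Fin 2))
    (H : SimpleGraph V) (l : ℕ) (hR : Rich G H l) :
    Rich G (step (P := {w : W // col w = 0}) (Q := {w : W // col w = 1})
      (Y := Fin (l * Fintype.card W + 1)) (fun p q => G.Adj p.1 q.1) H) (l + 1) := by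
  classical
  intro α _ c hα
  -- a big colour class in `Y`
  obtain ⟨a, ha⟩ : ∃ a : α, Fintype.card W <
      (Finset.univ.filter fun y : Fin (l * Fintype.card W + 1) => c (Sum.inl y) = a).card := by
    apply Fintype.exists_lt_card_fiber_of_mul_lt_card (f := fun y => c (Sum.inl y))
    rw [Fintype.card_fin]
    have : Fintype.card α ≤ l := by omega
    have := Nat.mul_le_mul_right (Fintype.card W) this
    omega
  have hQ : Fintype.card {w : W // col w = 1} ≤
      Fintype.card {y : Fin (l * Fintype.card W + 1) // c (Sum.inl y) = a} := by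
    rw [Fintype.card_subtype (fun y : Fin (l * Fintype.card W + 1) => c (Sum.inl y) = a)]
    exact (Fintype.card_subtype_le _).trans ha.le
  obtain ⟨e0⟩ := Function.Embedding.nonempty_of_card_le hQ
  let e : {w : W // col w = 1} ↪ Fin (l * Fintype.card W + 1) :=
    e0.trans (Function.Embedding.subtype _)
  have he : ∀ q, c (Sum.inl (e q)) = a := fun q => (e0 q).2
  by_cases hall : ∀ p : {w : W // col w = 0}, ∃ v : V, c (Sum.inr (e, p, v)) = a
  · choose v hv using hall
    have h01 : ∀ w : W, ¬ col w = 0 → col w = 1 := by
      intro w hw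
      have := (col w).isLt
      omega
    let g : W → Fin (l * Fintype.card W + 1) ⊕
        (({w : W // col w = 1} ↪ Fin (l * Fintype.card W + 1)) × {w : W // col w = 0} × V) :=
      fun w => if h : col w = 0 then Sum.inr (e, ⟨w, h⟩, v ⟨w, h⟩) else Sum.inl (e ⟨w, h01 w h⟩)
    have gc : ∀ w, c (g w) = a := by
      intro w
      by_cases h : col w = 0
      · simp only [g, h, dite_true]; exact hv _
      · simp only [g, h, dite_false]; exact he _
    refine ⟨⟨⟨g, ?_⟩, ?_⟩, a, gc⟩
    · intro w w' hww
      by_cases h : col w = 0 <;> by_cases h' : col w' = 0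
      · simp only [g, h, h', dite_true, Sum.inr.injEq, Prod.mk.injEq, Subtype.mk.injEq] at hww
        exact hww.2.1
      · simp [g, h, h'] at hww
      · simp [g, h, h'] at hww
      · simp only [g, h, h', dite_false, Sum.inl.injEq] at hww
        have := e.injective hww
        simpa using this
    · intro w w'
      change (step _ H).Adj (g w) (g w') ↔ G.Adj w w'
      by_cases h : col w = 0 <;> by_cases h' : col w' = 0
      · simp only [g, h, h', dite_true]
        constructor
        · rintro ⟨-, hp, hadj⟩
          have hw : w = w' := by simpa using hp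
          subst hw
          exact absurd hadj (H.loopless.irrefl _)
        · intro hadj
          exact absurd (h.trans h'.symm) (col.valid hadj)
      · simp only [g, h, h', dite_true, dite_false]
        constructor
        · rintro ⟨q, hq, hadj⟩
          have := e.injective hq
          rw [this] at hadj
          exact hadj
        · intro hadj
          exact ⟨⟨w', h01 w' h'⟩, rfl, hadj⟩
      · simp only [g, h, h', dite_true, dite_false]
        constructor
        · rintro ⟨q, hq, hadj⟩
          have := e.injective hq
          rw [this] at hadj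
          exact hadj.symm
        · intro hadj
          exact ⟨⟨w, h01 w h⟩, rfl, hadj.symm⟩
      · simp only [g, h, h', dite_false]
        constructor
        · intro hf
          exact absurd hf id
        · intro hadj
          exact absurd ((h01 w h).trans (h01 w' h').symm) (col.valid hadj)
  · push Not at hall
    obtain ⟨p, hp⟩ := hall
    obtain ⟨f, i, hf⟩ := hR {x : α // x ≠ a} (fun v => ⟨c (Sum.inr (e, p, v)), hp v⟩) (by
      have h1 : Fintype.card {x : α // x ≠ a} = Fintype.card α - 1 := by
        rw [Fintype.card_subtype_compl]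
        simp
      have h2 : 0 < Fintype.card α := Fintype.card_pos_iff.2 ⟨a⟩
      omega)
    refine ⟨f.trans (copyEmb _ H e p), i.1, ?_⟩
    intro w
    have := congrArg Subtype.val (hf w)
    exact this

theorem exists_rich {W : Type} [Fintype W] (G : SimpleGraph W) (col : G.Coloring (Fin 2)) (l : ℕ) :
    ∃ (V : Type) (_ : Fintype V) (H : SimpleGraph V), H.Colorable (l + 1) ∧ Rich G H (l + 1) := by
  classical
  induction l with
  | zero =>
    refine ⟨Unit, inferInstance, ⊥, ?_, ?_⟩
    · exact ⟨SimpleGraph.Coloring.mk (fun _ => 0) (by intro v w h; simp at h)⟩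
    · intro α _ c hα
      exfalso
      have : 0 < Fintype.card α := Fintype.card_pos_iff.2 ⟨c ()⟩
      omega
  | succ l ih =>
    obtain ⟨V, hV, H, hcol, hrich⟩ := ih
    exact ⟨_, inferInstance, _, step_colorable _ H (l + 1) hcol, step_rich G col H (l + 1) hrich⟩

/-- If `H` is `l`-colourable and `Rich` for `G`, where every proper colouring is `G`-free,
then the `G`-free chromatic number is `l`. -/
theorem freeChromaticNumber_eq {W V : Type} (G : SimpleGraph W) (H : SimpleGraph V) (l : ℕ)
    (h1 : ∃ c : V → Fin l, IsFreeColouring G H l c) (h2 : Rich G H l) :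
    freeChromaticNumber G H = l := by
  apply le_antisymm
  · exact Nat.sInf_le h1
  · apply le_csInf ⟨l, h1⟩
    rintro k ⟨c, hc⟩
    by_contra hk
    push Not at hk
    obtain ⟨f, i, hf⟩ := h2 (Fin k) c (by simpa using hk)
    exact hc i ⟨f, hf⟩

theorem freeColouring_of_adj {W V : Type} (G : SimpleGraph W) (H : SimpleGraph V) (l : ℕ)
    {u v : W} (huv : G.Adj u v) (hcol : H.Colorable l) :
    ∃ c : V → Fin l, IsFreeColouring G H l c := by
  obtain ⟨c⟩ := hcol
  refine ⟨c, ?_⟩
  rintro i ⟨f, hf⟩
  have h : H.Adj (f u) (f v) := f.map_adj_iff.2 huv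
  exact c.valid h ((hf u).trans (hf v).symm)

/-- A `K₂`-free colouring is the same as a proper colouring. -/
theorem isFreeColouring_top_iff {V : Type} (H : SimpleGraph V) (k : ℕ) (c : V → Fin k) :
    IsFreeColouring (⊤ : SimpleGraph (Fin 2)) H k c ↔ ∀ u v, H.Adj u v → c u ≠ c v := by
  constructor
  · intro h u v huv heq
    apply h (c u)
    refine ⟨⟨⟨![u, v], ?_⟩, ?_⟩, ?_⟩
    · intro i j hij
      fin_cases i <;> fin_cases j
      · rfl
      · exact absurd hij huv.ne
      · exact absurd hij huv.ne'
      · rfl
    · intro i j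
      change H.Adj (![u, v] i) (![u, v] j) ↔ _
      fin_cases i <;> fin_cases j <;> simp [huv, huv.symm]
    · intro i
      change c (![u, v] i) = c u
      fin_cases i <;> simp [heq]
  · rintro h i ⟨f, hf⟩
    have hadj : H.Adj (f 0) (f 1) := f.map_adj_iff.2 (by simp)
    exact h _ _ hadj ((hf 0).trans (hf 1).symm)

theorem freeChromaticNumber_top {V : Type} (H : SimpleGraph V) (l : ℕ)
    (h : H.chromaticNumber = l) :
    freeChromaticNumber (⊤ : SimpleGraph (Fin 2)) H = l := by
  have hset : {k : ℕ | ∃ c : V → Fin k, IsFreeColouring (⊤ : SimpleGraph (Fin 2)) H k c}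
      = {k : ℕ | H.Colorable k} := by
    ext k
    constructor
    · rintro ⟨c, hc⟩
      rw [isFreeColouring_top_iff] at hc
      exact ⟨SimpleGraph.Coloring.mk c (fun {u v} huv => hc u v huv)⟩
    · rintro ⟨c⟩
      exact ⟨c, (isFreeColouring_top_iff H k c).2 (fun u v huv => c.valid huv)⟩
  unfold freeChromaticNumber
  rw [hset]
  have hcol : H.Colorable l := chromaticNumber_le_iff_colorable.1 h.le
  have := hcol.chromaticNumber_eq_sInf
  rw [h] at this
  exact_mod_cast this.symm

theorem chromaticNumber_eq_of_rich {W V : Type} (G : SimpleGraph W) (H : SimpleGraph V) (l : ℕ)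
    {u v : W} (huv : G.Adj u v) (hcol : H.Colorable l) (hR : Rich G H l) :
    H.chromaticNumber = l := by
  apply le_antisymm hcol.chromaticNumber_le
  rw [le_chromaticNumber_iff_coloring]
  intro m c
  by_contra hm
  push Not at hm
  obtain ⟨f, i, hf⟩ := hR (Fin m) c (by simpa using hm)
  have h : H.Adj (f u) (f v) := f.map_adj_iff.2 huv
  exact c.valid h ((hf u).trans (hf v).symm)

/-- The graph used for edgeless `G`: a clique on `l + 1` vertices and `l * m` isolated vertices. -/
def cliqueAndIsolated (l m : ℕ) : SimpleGraph (Fin (l + 1) ⊕ (Fin l × Fin m)) where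
  Adj a b := match a, b with
    | Sum.inl x, Sum.inl y => x ≠ y
    | _, _ => False
  symm := ⟨by
    rintro (x | x) (y | y) h
    · exact Ne.symm h
    · exact h
    · exact h
    · exact h⟩
  loopless := ⟨by
    rintro (x | x) h
    · exact h rfl
    · exact h⟩

theorem cliqueAndIsolated_chromaticNumber (l m : ℕ) :
    (cliqueAndIsolated l m).chromaticNumber = ((l + 1 : ℕ) : ℕ∞) := by
  apply le_antisymm
  · apply Colorable.chromaticNumber_le
    refine ⟨SimpleGraph.Coloring.mk
      (fun a => match a with
        | Sum.inl x => x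
        | Sum.inr _ => 0) ?_⟩
    rintro (x | x) (y | y) h
    · exact h
    · exact absurd h id
    · exact absurd h id
    · exact absurd h id
  · apply le_chromaticNumber_of_pairwise_adj (f := fun x : Fin (l + 1) => Sum.inl x)
    · simp
    · intro x y hxy
      exact hxy

theorem cliqueAndIsolated_free {W : Type} [Fintype W] (l m : ℕ) (hm : 1 ≤ m)
    (hW : Fintype.card W = m + 1) (G : SimpleGraph W) (hG : ∀ u v, ¬ G.Adj u v) :
    freeChromaticNumber G (cliqueAndIsolated l m) = l + 1 := by
  classical
  apply freeChromaticNumber_eq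
  · refine ⟨fun a => match a with
      | Sum.inl _ => 0
      | Sum.inr (i, _) => i.succ, ?_⟩
    rintro i ⟨f, hf⟩
    by_cases hi : i = 0
    · subst hi
      -- all images lie in the clique
      have hl : ∀ w, ∃ x, f w = Sum.inl x := by
        intro w
        have := hf w
        rcases hfw : f w with x | ⟨x, y⟩
        · exact ⟨x, rfl⟩
        · rw [hfw] at this
          exact absurd this (Fin.succ_ne_zero _)
      have hne : ∃ u v : W, u ≠ v := by
        have : 1 < Fintype.card W := by omega
        exact Fintype.one_lt_card_iff.1 this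
      obtain ⟨u, v, huv⟩ := hne
      obtain ⟨x, hx⟩ := hl u
      obtain ⟨y, hy⟩ := hl v
      have hadj : (cliqueAndIsolated l m).Adj (f u) (f v) := by
        rw [hx, hy]
        intro hxy
        apply huv
        apply f.injective
        rw [hx, hy, hxy]
      exact hG u v (f.map_adj_iff.1 hadj)
    · -- all images lie in the isolated part with a fixed first coordinate
      have hr : ∀ w, ∃ y : Fin m, ∃ x : Fin l, f w = Sum.inr (x, y) ∧ x.succ = i := by
        intro w
        have := hf w
        rcases hfw : f w with x | ⟨x, y⟩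
        · rw [hfw] at this
          exact absurd this.symm hi
        · rw [hfw] at this
          exact ⟨y, x, rfl, this⟩
      choose g x hg hx using hr
      have ginj : Function.Injective g := by
        intro u v huv
        apply f.injective
        rw [hg u, hg v, huv]
        have : x u = x v := Fin.succ_injective _ ((hx u).trans (hx v).symm)
        rw [this]
      have := Fintype.card_le_of_injective g ginj
      rw [Fintype.card_fin] at this
      omega
  · intro α _ c hα
    -- an independent set with `l * m + 1` vertices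
    let g : Option (Fin l × Fin m) → Fin (l + 1) ⊕ (Fin l × Fin m) := fun o =>
      match o with
      | none => Sum.inl 0
      | some z => Sum.inr z
    have ginj : Function.Injective g := by
      rintro (_ | a) (_ | b) h
      · rfl
      · exact absurd h (by simp [g])
      · exact absurd h (by simp [g])
      · simpa [g] using h
    have gind : ∀ a b, ¬ (cliqueAndIsolated l m).Adj (g a) (g b) := by
      rintro (_ | a) (_ | b) h
      · exact h rfl
      · exact h
      · exact h
      · exact h
    obtain ⟨i, hi⟩ : ∃ i : α, m <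
        (Finset.univ.filter fun o : Option (Fin l × Fin m) => c (g o) = i).card := by
      apply Fintype.exists_lt_card_fiber_of_mul_lt_card (f := fun o => c (g o))
      rw [Fintype.card_option, Fintype.card_prod, Fintype.card_fin, Fintype.card_fin]
      have : Fintype.card α ≤ l := by omega
      have := Nat.mul_le_mul_right m this
      omega
    have hcard : Fintype.card W ≤
        Fintype.card {o : Option (Fin l × Fin m) // c (g o) = i} := by
      rw [Fintype.card_subtype (fun o : Option (Fin l × Fin m) => c (g o) = i)]
      omega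
    obtain ⟨e⟩ := Function.Embedding.nonempty_of_card_le hcard
    refine ⟨⟨⟨fun w => g (e w).1, ?_⟩, ?_⟩, i, fun w => (e w).2⟩
    · intro u v huv
      exact e.injective (Subtype.ext (ginj huv))
    · intro u v
      exact ⟨fun h => absurd h (gind _ _), fun h => absurd h (hG _ _)⟩

/-- Every bipartite graph `G` with at least two vertices is chromatically related to `K₂`:
for every `l ≥ 2` there is a finite graph `H` with `χ(H) = χ(H : -K₂) = χ(H : -G) = l`. -/
theorem result : ∀ (W : Type) [Fintype W] (G : SimpleGraph W),
    2 ≤ Fintype.card W → G.IsBipartite →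
    ∀ l : ℕ, 2 ≤ l → ∃ (V : Type) (_ : Fintype V) (H : SimpleGraph V),
      H.chromaticNumber = l ∧
      freeChromaticNumber (⊤ : SimpleGraph (Fin 2)) H = l ∧
      freeChromaticNumber G H = l := by
  intro W _ G hW hG l hl
  obtain ⟨k, rfl⟩ : ∃ k, l = k + 1 := ⟨l - 1, by omega⟩
  by_cases hE : ∃ u v, G.Adj u v
  · obtain ⟨u, v, huv⟩ := hE
    obtain ⟨col⟩ := hG
    obtain ⟨V, hV, H, hcol, hR⟩ := exists_rich G col k
    have hchi := chromaticNumber_eq_of_rich G H (k + 1) huv hcol hR
    exact ⟨V, hV, H, hchi, freeChromaticNumber_top H _ hchi,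
      freeChromaticNumber_eq G H _ (freeColouring_of_adj G H _ huv hcol) hR⟩
  · push Not at hE
    obtain ⟨m, hm⟩ : ∃ m, Fintype.card W = m + 1 := ⟨Fintype.card W - 1, by omega⟩
    have hchi := cliqueAndIsolated_chromaticNumber k m
    exact ⟨_, inferInstance, cliqueAndIsolated k m, hchi, freeChromaticNumber_top _ _ hchi,
      cliqueAndIsolated_free k m (by omega) hm G hE⟩

end Pool.Agent.Results.MP_fbe9f6_co.BipartiteRelatedK2
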